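import Mathlib
import Pool.Agent.Helper565.QWi

/-!
Index of normality of a matrix space, the case without invertible elements.
-/

namespace Pool.Agent.H780W

open Matrix
open Pool.Agent.Results.MP_8bfff4_mp.ExactValue

variable {D : ℕ} {W : Submodule ℂ (Matrix (Fin D) (Fin D) ℂ)}

/-- the row vectors `η` such that all `u ⊗ η` lie in `W ^ (n + j)` for all `j ≥ k` -/
def RR (W : Submodule ℂ (Matrix (Fin D) (Fin D) ℂ)) (n k : ℕ) : Submodule ℂ (Fin D → ℂ) where
  carrier := {η | ∀ u : Fin D → ℂ, ∀ j, k ≤ j → rk u η ∈ W ^ (n + j)}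
  zero_mem' := by
    intro u j _
    have : rk u 0 = (0 : Matrix (Fin D) (Fin D) ℂ) := by
      ext i j
      simp [rk, vecMulVec_apply]
    rw [this]
    exact Submodule.zero_mem _
  add_mem' := by
    intro x y hx hy u j hj
    rw [rk_add_right]
    exact Submodule.add_mem _ (hx u j hj) (hy u j hj)
  smul_mem' := by
    intro c x hx u j hj
    rw [rk_smul_right]
    exact Submodule.smul_mem _ c (hx u j hj)

lemma mem_RR {n k : ℕ} {η : Fin D → ℂ} :
    η ∈ RR W n k ↔ ∀ u : Fin D → ℂ, ∀ j, k ≤ j → rk u η ∈ W ^ (n + j) := Iff.rfl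

lemma RR_mono {n k : ℕ} : RR W n k ≤ RR W n (k+1) := by
  intro η h u j hj
  exact h u j (by omega)

lemma RR_mul {n k : ℕ} {η : Fin D → ℂ} (h : η ∈ RR W n k) {A : Matrix (Fin D) (Fin D) ℂ}
    (hA : A ∈ W) : η ᵥ* A ∈ RR W n (k+1) := by
  intro u j hj
  obtain ⟨j', rfl⟩ : ∃ j', j = j' + 1 := ⟨j - 1, by omega⟩
  rw [← rk_mul, ← add_assoc, pow_succ]
  exact Submodule.mul_mem_mul (h u j' (by omega)) hA

lemma stable_top {N : ℕ} (hN : W ^ N = ⊤) {R : Submodule ℂ (Fin D → ℂ)} (hR : R ≠ ⊥)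
    (h : ∀ η ∈ R, ∀ A ∈ W, η ᵥ* A ∈ R) : R = ⊤ := by
  obtain ⟨η, hη, hη0⟩ := Submodule.exists_mem_ne_zero_of_ne_bot hR
  have hWp : ∀ n, ∀ A ∈ W ^ n, ∀ w ∈ R, w ᵥ* A ∈ R := by
    intro n
    induction n with
    | zero =>
      intro A hA w hw
      rw [pow_zero, Submodule.mem_one] at hA
      obtain ⟨a, rfl⟩ := hA
      rw [Algebra.algebraMap_eq_smul_one, Matrix.vecMul_smul, Matrix.vecMul_one]
      exact R.smul_mem _ hw
    | succ n ih =>
      intro A hA w hw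
      rw [pow_succ'] at hA
      induction hA using Submodule.mul_induction_on' with
      | mem_mul_mem m hm n hn => rw [← Matrix.vecMul_vecMul]; exact ih n hn _ (h w hw m hm)
      | add x hx y hy h1 h2 => rw [Matrix.vecMul_add]; exact R.add_mem h1 h2
  rw [eq_top_iff]
  intro v _
  obtain ⟨ξ, hξ⟩ := exists_dual hη0
  have h1 := hWp N (rk ξ v) (by rw [hN]; trivial) η hη
  have h2 : η ᵥ* rk ξ v = (ξ ⬝ᵥ η) • v := by
    unfold rk
    rw [vecMul_vecMulVec, dotProduct_comm]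
  rw [h2, hξ, one_smul] at h1
  exact h1

lemma RR_grow {N : ℕ} (hN : W ^ N = ⊤) {n ρ : ℕ} (hρ : 1 ≤ ρ)
    (h0 : ρ ≤ Module.finrank ℂ (RR W n 0)) (k : ℕ) :
    ρ + k ≤ Module.finrank ℂ (RR W n k) ∨ RR W n k = ⊤ := by
  induction k with
  | zero => left; simpa using h0
  | succ k ih =>
    rcases ih with ih | ih
    · by_cases hcase : RR W n (k+1) ≤ RR W n k
      · right
        have h1 : RR W n k = ⊤ := by
          apply stable_top hN
          · intro hbot
            rw [hbot, finrank_bot] at ih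
            omega
          · intro η hη A hA
            exact hcase (RR_mul hη hA)
        rw [eq_top_iff, ← h1]
        exact RR_mono
      · left
        have h2 : RR W n k < RR W n (k+1) := lt_of_le_not_ge RR_mono hcase
        have h3 := Submodule.finrank_lt_finrank_of_lt h2
        omega
    · right
      rw [eq_top_iff, ← ih]
      exact RR_mono

lemma top_of_RR {n k : ℕ} (h : RR W n k = ⊤) : W ^ (n + k) = ⊤ := by
  rw [eq_top_iff]
  intro M _
  have h1 : M = ∑ i, rk (Pi.single i 1) (M i) := by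
    ext a b
    rw [Matrix.sum_apply]
    simp only [rk, vecMulVec_apply]
    rw [Finset.sum_eq_single a]
    · simp
    · intro c _ hc
      rw [Pi.single_eq_of_ne (Ne.symm hc), zero_mul]
    · intro h'; exact absurd (Finset.mem_univ _) h'
  rw [h1]
  apply Submodule.sum_mem
  intro i _
  have h2 : M i ∈ RR W n k := by rw [h]; trivial
  exact h2 _ k le_rfl

lemma mul_top {N : ℕ} (hN1 : 1 ≤ N) (hN : W ^ N = ⊤) (hD : 1 ≤ D) :
    W * (⊤ : Submodule ℂ (Matrix (Fin D) (Fin D) ℂ)) = ⊤ := by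
  obtain ⟨N', rfl⟩ : ∃ N', N = N' + 1 := ⟨N - 1, by omega⟩
  rw [eq_top_iff]
  calc (⊤ : Submodule ℂ (Matrix (Fin D) (Fin D) ℂ)) = W ^ (N' + 1) := hN.symm
    _ = W * W ^ N' := pow_succ' _ _
    _ ≤ _ := mul_le_mul' le_rfl le_top

lemma pow_mul_top {N : ℕ} (hN1 : 1 ≤ N) (hN : W ^ N = ⊤) (hD : 1 ≤ D) (k : ℕ) :
    W ^ k * (⊤ : Submodule ℂ (Matrix (Fin D) (Fin D) ℂ)) = ⊤ := by
  induction k with
  | zero => rw [pow_zero, one_mul]
  | succ k ih => rw [pow_succ, mul_assoc, mul_top hN1 hN hD, ih]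

/-- the main step: a product `g` of rank `ρ` of `m` elements, with `W^(n) g = ⊤ g`, gives
`W ^ (n + m + (D - ρ)) = ⊤` -/
lemma top_of_prod {N : ℕ} (hN1 : 1 ≤ N) (hN : W ^ N = ⊤) (hD : 1 ≤ D)
    {g : Matrix (Fin D) (Fin D) ℂ} {m n : ℕ} (hg : g ∈ W ^ m) (hg0 : 1 ≤ g.rank)
    (h : ⊤ * ln g ≤ W ^ n * ln g) : W ^ (n + m + (D - g.rank)) = ⊤ := by
  have h1 : ∀ j, ⊤ * ln g ≤ W ^ (n + m + j) := by
    intro j
    calc ⊤ * ln g = W ^ j * ⊤ * ln g := by rw [pow_mul_top hN1 hN hD]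
      _ = W ^ j * (⊤ * ln g) := by rw [mul_assoc]
      _ ≤ W ^ j * (W ^ n * ln g) := mul_le_mul' le_rfl h
      _ ≤ W ^ j * (W ^ n * W ^ m) := mul_le_mul' le_rfl (mul_le_mul' le_rfl (ln_le.2 hg))
      _ = W ^ (n + m + j) := by rw [← pow_add, ← pow_add]; congr 1; ring
  have h2 : g.rank ≤ Module.finrank ℂ (RR W (n+m) 0) := by
    let R : Submodule ℂ (Fin D → ℂ) := LinearMap.range g.vecMulLinear
    have hR : Module.finrank ℂ R = g.rank := by
      have : g.rank = gᵀ.rank := (Matrix.rank_transpose g).symm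
      rw [this]
      unfold Matrix.rank
      rw [Matrix.mulVecLin_transpose]
    rw [← hR]
    apply Submodule.finrank_mono
    rintro _ ⟨η, rfl⟩
    rw [mem_RR]
    intro u j _
    rw [Matrix.vecMulLinear_apply, ← rk_mul]
    apply h1 j
    exact Submodule.mul_mem_mul trivial (mem_ln_self g)
  have h3 := RR_grow hN hg0 h2 (D - g.rank)
  apply top_of_RR
  rcases h3 with h3 | h3
  · apply Submodule.eq_top_of_finrank_eq
    have h4 := Submodule.finrank_le (RR W (n+m) (D - g.rank))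
    rw [Module.finrank_fin_fun] at h4 ⊢
    have h5 := Matrix.rank_le_height g
    omega
  · exact h3

/-- Part 1: a space of singular matrices -/
theorem part1_top (hD : 2 ≤ D) {N : ℕ} (hN : W ^ N = ⊤) (hs : ∀ X ∈ W, ¬ IsUnit X) :
    W ^ (D * D - D + 1) = ⊤ := by
  have hp : Full (W ^ N) := full_of_top hN
  obtain ⟨m, hm1, hm2, hm3⟩ := exists_m hs
  set r := mx W (fun s => ⊤ * Q m 0 s) with hr
  have hne : ∀ ψ : Fin D → ℂ, ψ ≠ 0 → ∃ s : ℕ → Matrix (Fin D) (Fin D) ℂ, (∀ i, s i ∈ W) ∧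
      1 ≤ fr (Q m 0 s * ln (vecMulVec ψ (fun _ => 1))) := by
    intro ψ hψ
    obtain ⟨s, hsW, g, hg, hgψ⟩ := exists_nokill hD hp hψ m
    refine ⟨s, hsW, ?_⟩
    rw [hg, ln_mul_ln, Matrix.mul_vecMulVec]
    have h0 : vecMulVec (g *ᵥ ψ) (fun _ : Fin D => (1:ℂ)) ≠ 0 := by
      apply vecMulVec_ne_zero hgψ
      intro h
      have := congrFun h ⟨0, by omega⟩
      simp at this
    unfold fr ln
    rw [finrank_span_singleton h0]
  have hd0 : 1 ≤ mx W (fun s => W ^ 0 * Q m 0 s) := by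
    obtain ⟨ψ0, hψ0⟩ : ∃ ψ : Fin D → ℂ, ψ ≠ 0 := by
      refine ⟨fun _ => 1, ?_⟩
      intro h
      have := congrFun h ⟨0, by omega⟩
      simp at this
    obtain ⟨s, hsW, hs1⟩ := hne ψ0 hψ0
    calc 1 ≤ fr (Q m 0 s * ln (vecMulVec ψ0 (fun _ => 1))) := hs1
      _ ≤ fr (Q m 0 s) := fr_mul_ln_le _ _
      _ = fr (W ^ 0 * Q m 0 s) := by rw [pow_zero, one_mul]
      _ ≤ _ := le_mx (T := fun s => W ^ 0 * Q m 0 s) hsW
  have hd : ∀ n, n + 1 ≤ r → n + 1 ≤ mx W (fun s => W ^ n * Q m 0 s) := by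
    intro n
    induction n with
    | zero => intro _; exact hd0
    | succ n ih =>
      intro h
      have h1 := ih (by omega)
      rcases Nat.lt_or_ge (mx W (fun s => W ^ n * Q m 0 s)) r with h2 | h2
      · have h3 := grow_strict hD hp hm2 n h2
        omega
      · have h3 := grow_mono hm2 n
        omega
  have hr1 : 1 ≤ r := by
    have h1 : mx W (fun s => W ^ 0 * Q m 0 s) ≤ r := by
      obtain ⟨s, hsW, hs1⟩ := exists_mx W (fun s => W ^ 0 * Q m 0 s)
      rw [← hs1]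
      calc fr (W ^ 0 * Q m 0 s) ≤ fr (⊤ * Q m 0 s) := fr_mono (mul_le_mul' le_top le_rfl)
        _ ≤ _ := le_mx (T := fun s => ⊤ * Q m 0 s) hsW
    omega
  -- a good sequence
  obtain ⟨s, hsW, hsr⟩ := exists_mx W (fun s => W ^ (r-1) * Q m 0 s)
  have h1 : r ≤ fr (W ^ (r-1) * Q m 0 s) := by
    rw [hsr]
    have := hd (r-1) (by omega)
    omega
  have h2 : fr (⊤ * Q m 0 s) ≤ r := le_mx (T := fun s => ⊤ * Q m 0 s) hsW
  have h3 : W ^ (r-1) * Q m 0 s = ⊤ * Q m 0 s :=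
    eq_of_le_of_fr_le (mul_le_mul' le_top le_rfl) (h2.trans h1)
  obtain ⟨g, hg⟩ := Q_eq_ln m 0 s
  rw [h3, hg, fr_top_mul_ln] at h1
  rw [hg, fr_top_mul_ln] at h2
  have h4 : r = D * g.rank := le_antisymm h1 h2
  have h5 : 1 ≤ g.rank := by
    rcases Nat.eq_zero_or_pos g.rank with h0 | h0
    · rw [h0, mul_zero] at h4
      omega
    · exact h0
  have hgW : g ∈ W ^ m := Q_le hsW m 0 (by rw [hg]; exact mem_ln_self g)
  have hN1 : 1 ≤ N := by
    rcases Nat.eq_zero_or_pos N with h0 | h0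
    · exfalso
      subst h0
      rw [pow_zero] at hN
      have h6 : fr (1 : Submodule ℂ (Matrix (Fin D) (Fin D) ℂ)) = D * D := by rw [hN, fr_top]
      have h7 : fr (1 : Submodule ℂ (Matrix (Fin D) (Fin D) ℂ)) ≤ 1 := by
        rw [← ln_one]
        unfold fr ln
        exact (finrank_span_le_card _).trans (by simp)
      have h8 := Nat.mul_le_mul hD hD
      omega
    · exact h0
  have h6 := top_of_prod hN1 hN (by omega) hgW h5 (by rw [← hg, h3])
  apply top_le hD hp _ h6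
  -- arithmetic
  have h7 : g.rank + m ≤ D := by
    have h8 : D * (g.rank + m) ≤ D * D := by
      rw [mul_add, ← h4]; exact hm3
    exact Nat.le_of_mul_le_mul_left h8 (by omega)
  obtain ⟨m', rfl⟩ : ∃ m', m = m' + 1 := ⟨m - 1, by omega⟩
  obtain ⟨d, rfl⟩ : ∃ d, D = d + 2 := ⟨D - 2, by omega⟩
  obtain ⟨c, hc⟩ : ∃ c, d + 2 = g.rank + (m' + 1) + c := ⟨d + 2 - (g.rank + (m' + 1)), by omega⟩
  rw [h4]
  have e0 : g.rank = d + 1 - m' - c := by omega
  have hm'c : m' + c ≤ d := by omega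
  obtain ⟨b, hb⟩ : ∃ b, d = m' + c + b := ⟨d - (m' + c), by omega⟩
  have e1 : g.rank = b + 1 := by omega
  rw [e1]
  have e2 : (d + 2) * (b + 1) = (d+2) * b + (d + 2) := by ring
  have e3 : (d+2) * (d+2) = (d+2) * b + (d+2) * (m' + c) + (d+2) + (d+2) := by
    rw [hb]; ring
  have e4 : (m' + c) + (m' + c) ≤ (d+2) * (m' + c) := by
    have : 2 * (m' + c) ≤ (d+2) * (m' + c) := Nat.mul_le_mul_right _ (by omega)
    omega
  omega

end Pool.Agent.H780W
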