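import Mathlib
import Pool.Agent.H780W.A

/-!
Index of normality of a matrix space, the case with an invertible element.
-/

namespace Pool.Agent.H780W

open Matrix
open Pool.Agent.Results.MP_8bfff4_mp.ExactValue

variable {D : ℕ} {W : Submodule ℂ (Matrix (Fin D) (Fin D) ℂ)}

lemma grow_unit (hD : 2 ≤ D) {Y : Matrix (Fin D) (Fin D) ℂ}
    (hY : Y ∈ W) (hYu : IsUnit Y) {N : ℕ} (hN : W ^ N = ⊤) (hmin : ∀ i, i < N → W ^ i ≠ ⊤) :
    ∀ n, n ≤ N → n + 1 ≤ fr (W ^ n) := by
  have hp : Full (W ^ N) := full_of_top hN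
  intro n
  induction n with
  | zero =>
    intro _
    by_contra hcon
    push Not at hcon
    have h1 : fr (W ^ 0) = 0 := by omega
    have h2 : W ^ 0 = ⊥ := by
      unfold fr at h1
      exact Submodule.finrank_eq_zero.1 h1
    have h3 : (1 : Matrix (Fin D) (Fin D) ℂ) ∈ W ^ 0 := by
      rw [pow_zero]; exact Submodule.one_le.1 le_rfl
    rw [h2, Submodule.mem_bot] at h3
    have h4 := congrFun (congrFun h3 ⟨0, by omega⟩) ⟨0, by omega⟩
    rw [Matrix.one_apply_eq, Matrix.zero_apply] at h4
    exact one_ne_zero h4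
  | succ n ih =>
    intro hn
    have h1 := ih (by omega)
    by_contra hcon
    push Not at hcon
    exact hmin n (by omega) (strict_growth hD hp hY hYu (by omega))

/-- if a power `W ^ n` short of everything commutes with all units of `W`, then either the
index is at most `D * D - D + 1` or it is the last one, and contains all rank one nilpotents -/
lemma stable_last (hD : 2 ≤ D) {Y : Matrix (Fin D) (Fin D) ℂ}
    (hY : Y ∈ W) (hYu : IsUnit Y) {N : ℕ} (hN : W ^ N = ⊤) (hmin : ∀ i, i < N → W ^ i ≠ ⊤)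
    (hcase : D * D - D + 1 < N) :
    ∀ n, 1 ≤ n → n < N → St W (W ^ n) → n = N - 1 ∧
      ∀ u η : Fin D → ℂ, η ⬝ᵥ u = 0 → rk u η ∈ W ^ n := by
  have hp : Full (W ^ N) := full_of_top hN
  have hDD : D ≤ D * D := Nat.le_mul_self D
  have hDD2 : 2 * 2 ≤ D * D := Nat.mul_le_mul hD hD
  have hN1 : 1 ≤ N := by omega
  have hgrow := grow_unit hD hY hYu hN hmin
  intro n hn hnN hst
  by_cases hq : nrm (W ^ n) = ⊤
  · have hbrg : ∀ C, ∀ B ∈ W ^ n, C * B - B * C ∈ W ^ n := by
      intro C B hB
      have : C ∈ nrm (W ^ n) := by rw [hq]; trivial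
      exact this B hB
    have hbrg' : ∀ C, ∀ B ∈ W ^ n, B * C - C * B ∈ W ^ n := by
      intro C B hB
      have := (W ^ n).neg_mem (hbrg C B hB)
      rwa [neg_sub] at this
    obtain ⟨x, hx, hxs⟩ : ∃ x ∈ W ^ n, ∀ c : ℂ, x ≠ c • (1 : Matrix (Fin D) (Fin D) ℂ) := by
      by_contra hcon
      push Not at hcon
      have h1 : W ^ n ≤ ln 1 := by
        intro x hx
        obtain ⟨c, hc⟩ := hcon x hx
        rw [hc]
        exact (ln 1).smul_mem c (mem_ln_self 1)
      have h2 := fr_mono h1
      have h3 : fr (ln (1 : Matrix (Fin D) (Fin D) ℂ)) ≤ 1 := by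
        unfold fr ln
        exact (finrank_span_le_card _).trans (by simp)
      have h4 := hgrow n (by omega)
      omega
    have hrk := rank_one_of hD hp hY hYu (S := W ^ n) (fun x _ y hy => hbrg x y hy) hst hxs (by
      intro g g'
      apply hbrg'
      apply hbrg
      exact hbrg' g x hx)
    refine ⟨?_, hrk⟩
    have h5 := fr_of_rank_one hD hrk
    have h6 : fr (W ^ n) ≠ D * D := by
      intro h7
      apply hmin n hnN
      apply eq_of_le_of_fr_le le_top
      rw [fr_top, h7]
    have h8 : W ^ (n+1) = ⊤ := by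
      apply eq_of_le_of_fr_le le_top
      rw [fr_top]
      by_contra hcon
      push Not at hcon
      exact hmin n hnN (strict_growth hD hp hY hYu (by omega))
    have h9 : N ≤ n + 1 := by
      by_contra h10
      push Not at h10
      exact hmin (n+1) h10 h8
    omega
  · exfalso
    have h1 := thmB hD hp hY hYu (N := N) (fun i _ hi => hmin i hi) hN1 (q := nrm (W ^ n))
      (fun X hX hXu => nrm_le hst hX hXu) (fun X hX hXu => (nrm_st hst X hX hXu).ge)
    have h2 := proper_codim hD hp hY hYu (nrm_br (W ^ n)) (nrm_st hst) (one_mem_nrm _) hq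
    omega

/-- the structure of the only possible exception to the bound `D * D - D + 1` -/
lemma exception (hD : 2 ≤ D) {Y : Matrix (Fin D) (Fin D) ℂ}
    (hY : Y ∈ W) (hYu : IsUnit Y) {N : ℕ} (hN : W ^ N = ⊤) (hmin : ∀ i, i < N → W ^ i ≠ ⊤)
    (hcase : D * D - D + 1 < N) :
    N = D * D - D + 2 ∧ (∀ u η : Fin D → ℂ, η ⬝ᵥ u = 0 → rk u η ∈ W ^ (D * D - D + 1)) ∧
      ∀ n, 1 ≤ n → n < D * D - D + 1 → ¬ St W (W ^ n) := by
  have hDD : D ≤ D * D := Nat.le_mul_self D
  have hDD2 : 2 * 2 ≤ D * D := Nat.mul_le_mul hD hD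
  have hA := stable_last hD hY hYu hN hmin hcase
  by_cases hlast : St W (W ^ (N - 1))
  · have h1 := hA (N - 1) (by omega) (by omega) hlast
    have h2 := count_of_unstable hD hY hYu hN (K := N - 1) (by omega) (by
      intro i hi hi' hst
      have := (hA i hi (by omega) hst).1
      omega)
    have h3 : N = D * D - D + 2 := by omega
    refine ⟨h3, ?_, ?_⟩
    · have h4 := h1.2
      rw [h3] at h4
      exact h4
    · intro n hn hn' hst
      have := (hA n hn (by omega) hst).1
      omega
  · exfalso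
    have h2 := count_of_unstable hD hY hYu hN (K := N) le_rfl (by
      intro i hi hi' hst
      have := (hA i hi hi' hst).1
      rw [this] at hst
      exact hlast hst)
    omega

/-- the general upper bound -/
theorem top_bound (hD : 2 ≤ D) {N : ℕ} (hN : W ^ N = ⊤) : W ^ (D * D - D + 2) = ⊤ := by
  classical
  by_cases h : ∃ Y ∈ W, IsUnit Y
  · obtain ⟨Y, hY, hYu⟩ := h
    have hex : ∃ n, W ^ n = ⊤ := ⟨N, hN⟩
    have hM : W ^ (Nat.find hex) = ⊤ := Nat.find_spec hex
    have hmin : ∀ i, i < Nat.find hex → W ^ i ≠ ⊤ := fun i hi => Nat.find_min hex hi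
    apply top_le hD (full_of_top hN) _ hM
    by_contra hcon
    push Not at hcon
    have := (exception hD hY hYu hM hmin (by omega)).1
    omega
  · push Not at h
    exact top_le hD (full_of_top hN) (by omega) (part1_top hD hN h)

/-- the bound for `D = 2` -/
theorem top_bound_two {W : Submodule ℂ (Matrix (Fin 2) (Fin 2) ℂ)} {N : ℕ} (hN : W ^ N = ⊤) :
    W ^ 3 = ⊤ := by
  classical
  by_cases h : ∃ Y ∈ W, IsUnit Y
  · obtain ⟨Y, hY, hYu⟩ := h
    have hex : ∃ n, W ^ n = ⊤ := ⟨N, hN⟩
    have hM : W ^ (Nat.find hex) = ⊤ := Nat.find_spec hex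
    have hmin : ∀ i, i < Nat.find hex → W ^ i ≠ ⊤ := fun i hi => Nat.find_min hex hi
    apply top_le le_rfl (full_of_top hN) _ hM
    by_contra hcon
    push Not at hcon
    have h1 := grow_unit le_rfl hY hYu hM hmin 3 (by omega)
    have h2 := fr_le (W ^ 3)
    have h3 : W ^ 3 = ⊤ := by
      apply eq_of_le_of_fr_le le_top
      rw [fr_top]
      omega
    exact hmin 3 (by omega) h3
  · push Not at h
    exact part1_top le_rfl hN h

end Pool.Agent.H780W
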